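import Pool.Agent.H104_LHC.Main

/-!
# `NE₄(n) ≥ γ n` for every `n ≥ 5`

We prove the conjecture of Casselgren and Pham: there is a constant `γ > 0` such that, for every
`n ≥ 5` (odd or even), every Latin hypercuboid of dimension 4, order `n` and height `k < γ n` can be
extended by one more layer.

Proof idea.  The layer to be added is a Latin cube avoiding the set of the points of `[n]⁴` which
are used by the `k` given layers.  Write `n = 4 h + a` with `h` odd and `0 ≤ a ≤ 7`.  We start from
the Cayley table of `ℤ₂ × Dih(ℤ_h)` prolonged by `a` disjoint transversals (translates of an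
explicit complete mapping); it has the property that each row `s` has at least `h` partner rows `t`
such that the permutations `Q_s`, `Q_t` agree, as sets, on the blocks of a partition of the columns
into blocks of bounded size.  The Latin cube
`{(i, Q_s i, l, Q_s l)}` then has many small trades through each cell.  A random isotopy makes all
but a small proportion of the trades through each cell free of further conflicts, and a
Rosenfeld-type counting argument selects pairwise disjoint good trades, one for each conflict.
-/

set_option autoImplicit false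

namespace Pool.Agent.Results.MP_7580b0_co.NE4Linear

open Finset

/-- `H : [n]^(d-1) × [k] → [n]` is a Latin hypercuboid of order `n`, dimension `d` and height `k`:
every symbol occurs at most once along each axis-parallel line, i.e. `H` is injective in each of
the first `d - 1` coordinates and in the last one, the others being fixed. -/
def IsLHC (d n k : ℕ) (H : (Fin (d - 1) → Fin n) → Fin k → Fin n) : Prop :=
  (∀ (x : Fin (d - 1) → Fin n) (i : Fin (d - 1)) (l : Fin k),
    Function.Injective (fun a => H (Function.update x i a) l)) ∧
  (∀ x : Fin (d - 1) → Fin n, Function.Injective (H x))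

/-- `H` is extendible: one more layer can be added. -/
def Extendible (d n k : ℕ) (H : (Fin (d - 1) → Fin n) → Fin k → Fin n) : Prop :=
  ∃ H' : (Fin (d - 1) → Fin n) → Fin (k + 1) → Fin n, IsLHC d n (k + 1) H' ∧
    ∀ (x : Fin (d - 1) → Fin n) (l : Fin k), H' x l.castSucc = H x l

/-- The heights `k`, `1 ≤ k < n`, for which some Latin hypercuboid of order `n`, dimension `d` and
height `k` is not extendible; `NE_d(n)` is the least element of this set. -/
def NEHeights (d n : ℕ) : Set ℕ :=
  {k | 1 ≤ k ∧ k < n ∧ ∃ H : (Fin (d - 1) → Fin n) → Fin k → Fin n,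
    IsLHC d n k H ∧ ¬ Extendible d n k H}

/-- dimension 4, with the index type `Fin 3` -/
theorem ext3 : ∃ N : ℕ, 0 < N ∧ ∀ (n k : ℕ) (H : (Fin 3 → Fin n) → Fin k → Fin n), 1 ≤ k →
    k * N ≤ n →
    (∀ (x : Fin 3 → Fin n) (i : Fin 3) (l : Fin k),
      Function.Injective (fun a => H (Function.update x i a) l)) →
    (∀ x : Fin 3 → Fin n, Function.Injective (H x)) →
    ∃ H' : (Fin 3 → Fin n) → Fin (k + 1) → Fin n,
      ((∀ (x : Fin 3 → Fin n) (i : Fin 3) (l : Fin (k + 1)),
        Function.Injective (fun a => H' (Function.update x i a) l)) ∧
      (∀ x : Fin 3 → Fin n, Function.Injective (H' x))) ∧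
      ∀ (x : Fin 3 → Fin n) (l : Fin k), H' x l.castSucc = H x l := by
  classical
  obtain ⟨N, hN, hmain⟩ := H104LHC.avoid_all
  refine ⟨N, hN, ?_⟩
  intro n k H hk hbig hH1 hH2
  obtain ⟨L, h1, h2, h3, h4⟩ := hmain n k
    (fun x => ∃ r : Fin k, H ![x 0, x 1, x 2] r = x 3) hk (by
      intro x q
      have hone : ∀ r : Fin k, (univ.filter (fun z : Fin n =>
          H ![Function.update x q z 0, Function.update x q z 1, Function.update x q z 2] r =
            Function.update x q z 3)).card ≤ 1 := by
        intro r
        rw [card_le_one]
        intro z hz z' hz'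
        rw [mem_filter] at hz hz'
        obtain ⟨_, hz⟩ := hz
        obtain ⟨_, hz'⟩ := hz'
        have hq : q = 0 ∨ q = 1 ∨ q = 2 ∨ q = 3 := by
          revert q; intro q; fin_cases q <;> simp
        rcases hq with rfl | rfl | rfl | rfl
        · have e : ∀ z, ![Function.update x 0 z 0, Function.update x 0 z 1,
              Function.update x 0 z 2] = Function.update ![x 0, x 1, x 2] 0 z := by
            intro z; funext i; fin_cases i <;> simp [Function.update]
          rw [e] at hz hz'
          exact hH1 ![x 0, x 1, x 2] 0 r (hz.trans hz'.symm)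
        · have e : ∀ z, ![Function.update x 1 z 0, Function.update x 1 z 1,
              Function.update x 1 z 2] = Function.update ![x 0, x 1, x 2] 1 z := by
            intro z; funext i; fin_cases i <;> simp [Function.update]
          rw [e] at hz hz'
          exact hH1 ![x 0, x 1, x 2] 1 r (hz.trans hz'.symm)
        · have e : ∀ z, ![Function.update x 2 z 0, Function.update x 2 z 1,
              Function.update x 2 z 2] = Function.update ![x 0, x 1, x 2] 2 z := by
            intro z; funext i; fin_cases i <;> simp [Function.update]
          rw [e] at hz hz'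
          exact hH1 ![x 0, x 1, x 2] 2 r (hz.trans hz'.symm)
        · have e : ∀ z, ![Function.update x 3 z 0, Function.update x 3 z 1,
              Function.update x 3 z 2] = ![x 0, x 1, x 2] := by
            intro z; funext i; fin_cases i <;> simp [Function.update]
          rw [e, Function.update_self] at hz hz'
          rw [← hz, ← hz']
      have hsub : univ.filter (fun z : Fin n => ∃ r : Fin k,
          H ![Function.update x q z 0, Function.update x q z 1, Function.update x q z 2] r =
            Function.update x q z 3) ⊆ (univ : Finset (Fin k)).biUnion (fun r =>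
          univ.filter (fun z : Fin n =>
          H ![Function.update x q z 0, Function.update x q z 1, Function.update x q z 2] r =
            Function.update x q z 3)) := by
        intro z hz
        rw [mem_filter] at hz
        obtain ⟨_, r, hr⟩ := hz
        rw [mem_biUnion]
        exact ⟨r, mem_univ _, mem_filter.2 ⟨mem_univ _, hr⟩⟩
      have hfin := (card_le_card hsub).trans (card_biUnion_le_card_mul _ _ 1
        (fun r _ => hone r))
      rw [card_univ, Fintype.card_fin, mul_one] at hfin
      refine le_trans (card_le_card (fun z hz => ?_)) hfin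
      simp only [mem_filter, mem_univ, true_and] at hz ⊢
      exact hz) hbig
  have hL : ∀ (x : Fin 3 → Fin n) (r : Fin k), H x r ≠ L (x 0) (x 1) (x 2) := by
    intro x r e
    apply h4 (x 0) (x 1) (x 2)
    refine ⟨r, ?_⟩
    have e1 : (![(![x 0, x 1, x 2, L (x 0) (x 1) (x 2)] : Fin 4 → Fin n) 0,
        (![x 0, x 1, x 2, L (x 0) (x 1) (x 2)] : Fin 4 → Fin n) 1,
        (![x 0, x 1, x 2, L (x 0) (x 1) (x 2)] : Fin 4 → Fin n) 2] : Fin 3 → Fin n) = x := by
      funext i; fin_cases i <;> rfl
    rw [e1]
    exact e
  refine ⟨fun x l => if hl : (l : ℕ) < k then H x ⟨l, hl⟩ else L (x 0) (x 1) (x 2),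
    ⟨?_, ?_⟩, ?_⟩
  · intro x i l a b hab
    beta_reduce at hab
    by_cases hl : (l : ℕ) < k
    · rw [dif_pos hl, dif_pos hl] at hab
      exact hH1 x i ⟨l, hl⟩ hab
    · rw [dif_neg hl, dif_neg hl] at hab
      have hi : i = 0 ∨ i = 1 ∨ i = 2 := by
        revert i; intro i; fin_cases i <;> simp
      rcases hi with rfl | rfl | rfl
      · simp only [Function.update_self, Function.update_of_ne (show (1 : Fin 3) ≠ 0 by decide),
          Function.update_of_ne (show (2 : Fin 3) ≠ 0 by decide)] at hab
        exact h1 _ _ hab
      · simp only [Function.update_self, Function.update_of_ne (show (0 : Fin 3) ≠ 1 by decide),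
          Function.update_of_ne (show (2 : Fin 3) ≠ 1 by decide)] at hab
        exact h2 _ _ hab
      · simp only [Function.update_self, Function.update_of_ne (show (0 : Fin 3) ≠ 2 by decide),
          Function.update_of_ne (show (1 : Fin 3) ≠ 2 by decide)] at hab
        exact h3 _ _ hab
  · intro x l l' hll
    beta_reduce at hll
    by_cases hl : (l : ℕ) < k <;> by_cases hl' : (l' : ℕ) < k
    · rw [dif_pos hl, dif_pos hl'] at hll
      have := hH2 x hll
      rw [Fin.mk.injEq] at this
      exact Fin.ext this
    · rw [dif_pos hl, dif_neg hl'] at hll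
      exact absurd hll (hL x _)
    · rw [dif_neg hl, dif_pos hl'] at hll
      exact absurd hll.symm (hL x _)
    · have h5 := l.2
      have h6 := l'.2
      exact Fin.ext (by omega)
  · intro x l
    have hl : ((l.castSucc : Fin (k + 1)) : ℕ) < k := by
      rw [Fin.val_castSucc]; exact l.2
    beta_reduce
    rw [dif_pos hl]
    rfl

/-- There is a constant `γ > 0` such that `NE₄(n) ≥ γ n` for every `n ≥ 5`: every height `k` for
which a non-extendible Latin hypercuboid of dimension 4 and order `n` exists satisfies
`k ≥ γ n`. -/
theorem result : ∃ γ : ℝ, 0 < γ ∧ ∀ n : ℕ, 5 ≤ n → ∀ k ∈ NEHeights 4 n, γ * (n : ℝ) ≤ (k : ℝ) := by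
  obtain ⟨N, hN, hmain⟩ := ext3
  have hN' : (0 : ℝ) < N := by exact_mod_cast hN
  refine ⟨1 / (N : ℝ), by positivity, ?_⟩
  rintro n _ k ⟨hk1, hkn, H, hH, hnot⟩
  by_contra hcon
  rw [not_le] at hcon
  have h1 : (k : ℝ) * N < n := by
    rw [one_div, inv_mul_eq_div, lt_div_iff₀ hN'] at hcon
    exact hcon
  have h2 : k * N ≤ n := by
    have : k * N < n := by exact_mod_cast h1
    exact this.le
  exact hnot (hmain n k H hk1 h2 hH.1 hH.2)

end Pool.Agent.Results.MP_7580b0_co.NE4Linear
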